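import Pool.Agent.Lib.helper9.GDomE

namespace Pool.Agent.Results.MP_699b34_lc.NPComplete

open Pool.Agent.Cx Pool.Agent.H9D

theorem result (k : ℕ) (hk : 2 ≤ k) : NPComplete (Lang (GD k)) :=
  ⟨gd_np k (by omega), (hard_sat.red (red_pt k) (red_iff hk)).npHard⟩

end Pool.Agent.Results.MP_699b34_lc.NPComplete
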